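import Pool.Agent.SZT.StmtsC

set_option autoImplicit false

/-! Squad SZT (MP_160b6c_nt), row FIN: assembly of the theorem. -/

namespace Pool.Agent.SZT.H44

open Polynomial NumberField H58Q Pool.Agent.SZT

theorem num_core {h T T' R C ε n0 d' d G N : ℝ} (hε : 0 < ε) (hn0 : 80 / ε ≤ n0)
    (hT' : 0 ≤ T') (hTT : T' ≤ T) (hT : T ≤ 20 * h)
    (hR : R ≤ (T - T') + T' / n0) (hG : 0 < G) (hGN : N ≤ (1 + ε / 80) * G)
    (hms : G * ((1 / 2) * T - 7 * h - C * d') ≤ (N / 6) * T') (hC : 0 ≤ C) (hd : d' ≤ d)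
    (hmain : (42 + ε) * h ≤ R + 2 * T) : h ≤ 12 * C * d / ε := by
  have h1 : (1 / 2) * T - 7 * h - C * d' ≤ (1 + ε / 80) / 6 * T' := by
    have h2 : (N / 6) * T' ≤ G * ((1 + ε / 80) / 6 * T') := by
      have h3 : (N / 6) * T' ≤ ((1 + ε / 80) * G / 6) * T' :=
        mul_le_mul_of_nonneg_right (by linarith) hT'
      calc (N / 6) * T' ≤ ((1 + ε / 80) * G / 6) * T' := h3
        _ = G * ((1 + ε / 80) / 6 * T') := by ring
    exact le_of_mul_le_mul_left (hms.trans h2) hG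
  have hn : 0 < n0 := lt_of_lt_of_le (by positivity) hn0
  have h2 : T' / n0 ≤ ε / 80 * T' := by
    rw [div_le_iff₀ hn]
    have h3 : 1 ≤ ε / 80 * n0 := by
      have h4 := mul_le_mul_of_nonneg_left hn0 (by positivity : 0 ≤ ε / 80)
      have h5 : ε / 80 * (80 / ε) = 1 := by field_simp
      linarith
    nlinarith
  have h3 : ε * T' ≤ ε * (20 * h) := mul_le_mul_of_nonneg_left (hTT.trans hT) hε.le
  have h4 : C * d' ≤ C * d := mul_le_mul_of_nonneg_left hd hC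
  rw [le_div_iff₀ hε]
  nlinarith

theorem exists_N1 (η : ℝ) (hη : 0 < η) : ∃ N₁ : ℕ, 1 ≤ N₁ ∧ ∀ N G : ℕ, N₁ ≤ N →
    N ≤ G + (6 * (Nat.sqrt (2 * N) + 1) + 2) → (N : ℝ) ≤ (1 + η) * G := by
  obtain ⟨m, hm⟩ := exists_nat_ge (28 * (1 + η) / η)
  refine ⟨m * m + 1, by omega, ?_⟩
  intro N G hN hG
  have hs1 : m ≤ Nat.sqrt (2 * N) := Nat.le_sqrt.2 (by omega)
  have hs2 : 1 ≤ Nat.sqrt (2 * N) := Nat.le_sqrt.2 (by omega)
  have hs3 : Nat.sqrt (2 * N) * Nat.sqrt (2 * N) ≤ 2 * N := Nat.sqrt_le (2 * N)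
  set s := Nat.sqrt (2 * N) with hs
  have r1 : (m : ℝ) ≤ s := by exact_mod_cast hs1
  have r2 : (1 : ℝ) ≤ s := by exact_mod_cast hs2
  have r3 : (s : ℝ) * s ≤ 2 * N := by exact_mod_cast hs3
  have r4 : (N : ℝ) ≤ G + (6 * (s + 1) + 2) := by exact_mod_cast hG
  have r5 : 28 * (1 + η) / η ≤ s := hm.trans r1
  rw [div_le_iff₀ hη] at r5
  -- `28 (1 + η) ≤ s η`
  have r6 : (1 + η) * (14 * s) ≤ η * N := by nlinarith
  have r7 : (1 + η) * (6 * ((s : ℝ) + 1) + 2) ≤ (1 + η) * (14 * s) :=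
    mul_le_mul_of_nonneg_left (by linarith) (by linarith)
  have r8 : (1 + η) * (N : ℝ) ≤ (1 + η) * (G + (6 * (s + 1) + 2)) :=
    mul_le_mul_of_nonneg_left r4 (by linarith)
  nlinarith

theorem sum_R {ι : Type} (S : Finset ι) (P : ι → Prop) [DecidablePred P] (l r : ι → ℝ) (n0 : ℝ)
    (h1 : ∀ v ∈ S, P v → r v ≤ l v / n0) (h2 : ∀ v ∈ S, ¬ P v → r v ≤ l v) :
    ∑ v ∈ S, r v ≤ (∑ v ∈ S, l v - ∑ v ∈ S with P v, l v) + (∑ v ∈ S with P v, l v) / n0 := by
  rw [← Finset.sum_filter_add_sum_filter_not S P r, ← Finset.sum_filter_add_sum_filter_not S P l,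
    Finset.sum_div]
  have e1 : ∑ v ∈ S with P v, r v ≤ ∑ v ∈ S with P v, l v / n0 := by
    apply Finset.sum_le_sum
    intro v hv
    rw [Finset.mem_filter] at hv
    exact h1 v hv.1 hv.2
  have e2 : ∑ v ∈ S with ¬ P v, r v ≤ ∑ v ∈ S with ¬ P v, l v := by
    apply Finset.sum_le_sum
    intro v hv
    rw [Finset.mem_filter] at hv
    exact h2 v hv.1 hv.2
  linarith

theorem fin (hMSM : MsmStatement) (hREX : RexStatement) (hDSH : DshStatement)
    (hQVN : QvnStatement) (hGPR : GprStatement) (hDED : UBT.DedStmt) : SztStatement := by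
  classical
  intro d ε hε
  obtain ⟨Cc, hCc, hmsm⟩ := hMSM
  obtain ⟨n₀, hn₀⟩ := exists_nat_ge (80 / ε)
  have hn₀pos : 0 < n₀ := by
    rcases Nat.eq_zero_or_pos n₀ with h | h
    · rw [h, Nat.cast_zero] at hn₀
      exact absurd hn₀ (not_le.2 (by positivity))
    · exact h
  obtain ⟨N₁, hN₁0, hN₁⟩ := exists_N1 (ε / 80) (by positivity)
  obtain ⟨B₁, hB₁⟩ := hGPR d (Real.exp (20 * (12 * Cc * d / ε)))
  refine ⟨max (n₀.factorial * N₁) B₁, ?_⟩
  intro K _ _ hd Y hmon hdeg hint S hS hmain c hc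
  haveI hded : IsDedekindDomain (Q K Y.f) := hDED K Y.f two_ne_zero Y.sqfree
  set m₀ := n₀.factorial with hm₀
  have hm₀pos : 0 < m₀ := Nat.factorial_pos n₀
  have hfin : IsOfFinOrder (c ^ m₀) := hc.pow
  set N := orderOf (c ^ m₀) with hNdef
  have hNpos : 0 < N := orderOf_pos_iff.2 hfin
  have hpow : (c ^ m₀) ^ N = 1 := pow_orderOf_eq_one _
  have hle : orderOf c ≤ m₀ * N := by
    apply Nat.le_of_dvd (Nat.mul_pos hm₀pos hNpos)
    apply orderOf_dvd_of_pow_eq_one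
    rw [pow_mul]
    exact hpow
  rcases lt_or_ge N N₁ with hlt | hge
  · exact (hle.trans (Nat.mul_le_mul_left _ hlt.le)).trans (le_max_left _ _)
  refine le_trans ?_ (le_max_right _ _)
  -- the ideals
  have h2 : (2 : K) ≠ 0 := two_ne_zero
  obtain ⟨A₁, B₁', hI, hmum, _, hcl⟩ := hREX K Y.f h2 Y.sqfree hdeg c
  have hclk : ∀ k : ℕ, ClassGroup.mk0 ((⟨MI Y.f A₁ B₁', hI⟩ :
      nonZeroDivisors (Ideal (Q K Y.f))) ^ k) = c ^ k := by
    intro k
    rw [map_pow, hcl]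
  have hprin : ∀ k : ℕ, ((MI Y.f A₁ B₁') ^ k).IsPrincipal ↔ c ^ k = 1 := by
    intro k
    rw [← hclk k]
    exact (ClassGroup.mk0_eq_one_iff (I := (MI Y.f A₁ B₁') ^ k) (pow_mem hI k)).symm
  choose A B hA hAmum hAdeg hAcl using fun k : ℕ => hREX K Y.f h2 Y.sqfree hdeg (c ^ (m₀ * k))
  have hsame : ∀ k, SameCl (MI Y.f (A k) (B k)) ((MI Y.f A₁ B₁') ^ (m₀ * k)) := by
    intro k
    have h3 := (hAcl k).trans (hclk (m₀ * k)).symm
    rw [ClassGroup.mk0_eq_mk0_iff] at h3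
    obtain ⟨a, b, ha, hb, hab⟩ := h3
    exact ⟨a, b, ha, hb, hab⟩
  obtain ⟨G, hG1, hG2, hG3⟩ := hmsm K Y.f A₁ B₁' m₀ n₀ N A B S hmon hdeg Y.sqfree hint hmum hNpos
    hm₀pos (fun n h0 h1 => Nat.dvd_factorial h0 h1)
    ((hprin (m₀ * N)).2 (by rw [pow_mul]; exact hpow))
    (by
      intro j hj0 hjN hpr
      rw [hprin, pow_mul] at hpr
      exact absurd (Nat.le_of_dvd hj0 (orderOf_dvd_of_pow_eq_one hpr)) (not_le.2 hjN))
    (fun k => ⟨hAmum k, hAdeg k, hsame k⟩) hS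
  obtain ⟨hD0, _, hh0, hnorm, hsum, _⟩ := hDSH K Y.f hmon hdeg Y.sqfree hint
  -- the valuations
  have hl0 : ∀ v ∈ S, 0 < - Real.log (v (discr Y.f)) := by
    intro v hv
    have h3 : 0 < v (discr Y.f) := lt_of_le_of_ne (apply_nonneg v _)
      (Ne.symm ((map_ne_zero v).2 hD0))
    linarith [Real.log_neg h3 (hS v hv).2]
  have hval : ∀ v ∈ S, ∃ n : ℕ, 0 < n ∧
      v (discr Y.f) * (Ideal.absNorm v.maximalIdeal.asIdeal : ℝ) ^ n = 1 :=
    fun v hv => hQVN K v _ hD0 (hS v hv).2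
  have hNv : ∀ v ∈ S, (1 : ℝ) ≤ (Ideal.absNorm v.maximalIdeal.asIdeal : ℝ) := by
    intro v hv
    obtain ⟨n, hn, h3⟩ := hval v hv
    have h4 : Ideal.absNorm v.maximalIdeal.asIdeal ≠ 0 := by
      intro h5
      rw [h5, Nat.cast_zero, zero_pow hn.ne', mul_zero] at h3
      exact zero_ne_one h3
    exact_mod_cast Nat.one_le_iff_ne_zero.2 h4
  have hlog : ∀ v ∈ S, ∀ n : ℕ, 0 < n →
      v (discr Y.f) * (Ideal.absNorm v.maximalIdeal.asIdeal : ℝ) ^ n = 1 →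
      - Real.log (v (discr Y.f)) = n * Real.log (Ideal.absNorm v.maximalIdeal.asIdeal) := by
    intro v hv n hn h3
    have h4 : 0 < v (discr Y.f) := lt_of_le_of_ne (apply_nonneg v _)
      (Ne.symm ((map_ne_zero v).2 hD0))
    have h5 := congrArg Real.log h3
    have h6 : (0 : ℝ) < (Ideal.absNorm v.maximalIdeal.asIdeal : ℝ) :=
      lt_of_lt_of_le one_pos (hNv v hv)
    rw [Real.log_mul h4.ne' (pow_pos h6 n).ne', Real.log_pow, Real.log_one] at h5
    linarith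
  have hR := sum_R S (fun v => v (discr Y.f) *
      (Ideal.absNorm v.maximalIdeal.asIdeal : ℝ) ^ n₀ < 1)
    (fun v => - Real.log (v (discr Y.f)))
    (fun v => Real.log (Ideal.absNorm v.maximalIdeal.asIdeal)) (n₀ : ℝ)
    (by
      intro v hv hP
      obtain ⟨n, hn, h3⟩ := hval v hv
      have h4 : n₀ < n := by
        by_contra h5
        have h6 := pow_le_pow_right₀ (hNv v hv) (not_lt.1 h5)
        have h7 := mul_le_mul_of_nonneg_left h6 (apply_nonneg v (discr Y.f))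
        linarith
      have h8 := hlog v hv n hn h3
      have h9 := Real.log_nonneg (hNv v hv)
      rw [le_div_iff₀ (by exact_mod_cast hn₀pos)]
      rw [h8]
      have h10 : (n₀ : ℝ) ≤ n := by exact_mod_cast h4.le
      nlinarith)
    (by
      intro v hv _
      obtain ⟨n, hn, h3⟩ := hval v hv
      have h8 := hlog v hv n hn h3
      have h9 := Real.log_nonneg (hNv v hv)
      have h10 : (1 : ℝ) ≤ n := by exact_mod_cast hn
      show Real.log (Ideal.absNorm v.maximalIdeal.asIdeal) ≤ - Real.log (v (discr Y.f))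
      rw [h8]
      nlinarith)
  have hNG := hN₁ N G hge hG1
  have hGpos : (0 : ℝ) < G := by
    have h3 : (0 : ℝ) < N := by exact_mod_cast hNpos
    have h4 : 0 < (1 + ε / 80) * (G : ℝ) := lt_of_lt_of_le h3 hNG
    exact pos_of_mul_pos_right h4 (by positivity)
  have hT'0 : 0 ≤ ∑ v ∈ S with v (discr Y.f) *
      (Ideal.absNorm v.maximalIdeal.asIdeal : ℝ) ^ n₀ < 1, (- Real.log (v (discr Y.f))) := by
    apply Finset.sum_nonneg
    intro v hv
    exact (hl0 v (Finset.mem_filter.1 hv).1).le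
  have hT'T : ∑ v ∈ S with v (discr Y.f) *
      (Ideal.absNorm v.maximalIdeal.asIdeal : ℝ) ^ n₀ < 1, (- Real.log (v (discr Y.f))) ≤
      ∑ v ∈ S, (- Real.log (v (discr Y.f))) := by
    apply Finset.sum_le_sum_of_subset_of_nonneg (Finset.filter_subset _ _)
    intro v hv _
    exact (hl0 v hv).le
  have hT20 : ∑ v ∈ S, (- Real.log (v (discr Y.f))) ≤ 20 * lH Y.f := by
    rw [Finset.sum_neg_distrib]
    exact hsum S
  have hmain' : (42 + ε) * lH Y.f ≤
      (∑ v ∈ S, Real.log (Ideal.absNorm v.maximalIdeal.asIdeal)) +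
        2 * ∑ v ∈ S, (- Real.log (v (discr Y.f))) := by
    rw [Finset.sum_add_distrib, ← Finset.mul_sum] at hmain
    exact hmain
  have hbound : lH Y.f ≤ 12 * Cc * d / ε := by
    refine num_core (G := G) (N := N) (d' := Module.finrank ℚ K) hε hn₀ hT'0 hT'T hT20 hR hGpos
      hNG ?_ hCc (by exact_mod_cast hd) hmain'
    rw [Finset.sum_neg_distrib, Finset.sum_neg_distrib]
    exact hG3
  refine hB₁ K hd Y hmon hdeg hint (hnorm.trans ?_) c hc
  exact Real.exp_le_exp.2 (by linarith)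

end Pool.Agent.SZT.H44
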